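import Mathlib
import Pool.Agent.R646.SLn.CharP

/-!
# Linear images of degree `n` in characteristic `p` of groups with the finite quotients of `SL (n, ℤ)`

Let `n ≥ 5` and let `Γ` be a finitely generated group all of whose finite quotients are quotients of
`SL (n, ℤ)` (in particular any finitely generated group with the same finite quotients as `SL (n, ℤ)`).
Let `K` be a field of prime characteristic `p`.  Then every homomorphism from `Γ` to `GL (n, K)` is
trivial or its image is isomorphic to `SL (n, 𝔽_p)`; in particular the image is finite.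
-/

set_option autoImplicit false

namespace Pool.Agent.Results.MP_a2a22c_al.CharacteristicP

open Pool.Agent.R646.SLn

theorem result (n : ℕ) (hn : 5 ≤ n) (Γ : Type*) [Group Γ] (hfg : Group.FG Γ)
    (hq : ∀ (Q : Type) [Group Q] [Finite Q], (∃ f : Γ →* Q, Function.Surjective f) →
      ∃ f : Matrix.SpecialLinearGroup (Fin n) ℤ →* Q, Function.Surjective f)
    (K : Type*) [Field K] (p : ℕ) (hp : p.Prime) [CharP K p]
    (φ : Γ →* Matrix.GeneralLinearGroup (Fin n) K) :
    φ = 1 ∨ Nonempty (φ.range ≃* Matrix.SpecialLinearGroup (Fin n) (ZMod p)) := by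
  by_cases hφ : φ = 1
  · exact Or.inl hφ
  · exact Or.inr (image_iso hn hfg hq p hp φ hφ)

end Pool.Agent.Results.MP_a2a22c_al.CharacteristicP
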