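import Mathlib
import Pool.Agent.R646.SLn.Dense

/-!
# Homomorphisms to `SL (n, ℤ)` of groups with the finite quotients of `SL (n, ℤ)`

Let `n ≥ 5` and let `Γ` be a finitely generated group all of whose finite quotients are quotients of
`SL (n, ℤ)` (in particular any finitely generated group with the same finite quotients as `SL (n, ℤ)`).
Then the image of every nontrivial homomorphism from `Γ` to `SL (n, ℤ)` is mapped onto
`SL (n, 𝔽_p)` by the reduction modulo `p`, for every prime `p`.
-/

set_option autoImplicit false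

namespace Pool.Agent.Results.MP_a2a22c_al.DenseModPrimes

open Pool.Agent.R646.SLn

theorem result (n : ℕ) (hn : 5 ≤ n) (Γ : Type*) [Group Γ] (hfg : Group.FG Γ)
    (hq : ∀ (Q : Type) [Group Q] [Finite Q], (∃ f : Γ →* Q, Function.Surjective f) →
      ∃ f : Matrix.SpecialLinearGroup (Fin n) ℤ →* Q, Function.Surjective f)
    (φ : Γ →* Matrix.SpecialLinearGroup (Fin n) ℤ) (hφ : φ ≠ 1) (p : ℕ) (hp : p.Prime) :
    Function.Surjective
      (fun γ => Matrix.SpecialLinearGroup.map (Int.castRingHom (ZMod p)) (φ γ)) :=
  surj_mod hn hfg hq p hp φ hφ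

end Pool.Agent.Results.MP_a2a22c_al.DenseModPrimes
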