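import Mathlib
import Pool.Agent.R646.SLn.Act
import Pool.Agent.R646.SLn.Free

/-!
# Groups with the finite quotients of `SL (n, ℤ)` acting on groups with few generators

Let `n ≥ 3` and let `Γ` be a group all of whose finite quotients are quotients of `SL (n, ℤ)` (in
particular any group with the same finite quotients as `SL (n, ℤ)`).  Then every action of `Γ` by
automorphisms on a group `M` generated by fewer than `n` elements is trivial, provided that the
nontrivial elements of `M` survive in finite quotients of prime power order (the prime may depend on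
the element), as is the case for free groups (`free_group` below).
-/

set_option autoImplicit false

namespace Pool.Agent.Results.MP_a2a22c_al.SmallAutomorphisms

open Pool.Agent.R646.SLn

theorem result (n : ℕ) (hn : 3 ≤ n) (Γ : Type*) [Group Γ]
    (hq : ∀ (Q : Type) [Group Q] [Finite Q], (∃ f : Γ →* Q, Function.Surjective f) →
      ∃ f : Matrix.SpecialLinearGroup (Fin n) ℤ →* Q, Function.Surjective f)
    (M : Type*) [Group M] (m : ℕ) (hm : m < n) (g : Fin m → M)
    (hg : Subgroup.closure (Set.range g) = ⊤)
    (hres : ∀ x : M, x ≠ 1 → ∃ (p : ℕ) (P : Type) (_ : Group P) (f : M →* P),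
      p.Prime ∧ Finite P ∧ IsPGroup p P ∧ f x ≠ 1)
    (φ : Γ →* MulAut M) : φ = 1 :=
  aut_trivial hn hq hm g hg hres φ

/-- The case of free groups: every action on a free group of rank less than `n` is trivial. -/
theorem free_group (n : ℕ) (hn : 3 ≤ n) (Γ : Type*) [Group Γ]
    (hq : ∀ (Q : Type) [Group Q] [Finite Q], (∃ f : Γ →* Q, Function.Surjective f) →
      ∃ f : Matrix.SpecialLinearGroup (Fin n) ℤ →* Q, Function.Surjective f)
    (m : ℕ) (hm : m < n) (φ : Γ →* MulAut (FreeGroup (Fin m))) : φ = 1 :=
  result n hn Γ hq _ m hm FreeGroup.of (FreeGroup.closure_range_of _)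
    (fun w hw => Fr.free_res w hw) φ

end Pool.Agent.Results.MP_a2a22c_al.SmallAutomorphisms
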