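import Mathlib
import Pool.Agent.R646.SLn.Ring

/-!
# Small matrix representations of groups with the finite quotients of `SL (n, ℤ)`

Let `n ≥ 3` and let `Γ` be a finitely generated group all of whose finite quotients are quotients of
`SL (n, ℤ)` (in particular any finitely generated group with the same finite quotients as `SL (n, ℤ)`).
Then every homomorphism from `Γ` to `GL (m, A)` with `m < n` is trivial, for every commutative ring
`A`.
-/

set_option autoImplicit false

namespace Pool.Agent.Results.MP_a2a22c_al.SmallLinear

open Pool.Agent.R646.SLn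

theorem result (n : ℕ) (hn : 3 ≤ n) (Γ : Type*) [Group Γ] (hfg : Group.FG Γ)
    (hq : ∀ (Q : Type) [Group Q] [Finite Q], (∃ f : Γ →* Q, Function.Surjective f) →
      ∃ f : Matrix.SpecialLinearGroup (Fin n) ℤ →* Q, Function.Surjective f)
    (A : Type*) [CommRing A] (m : ℕ) (hm : m < n) (φ : Γ →* Matrix.GeneralLinearGroup (Fin m) A) :
    φ = 1 :=
  ring_trivial hn hfg hq hm φ

end Pool.Agent.Results.MP_a2a22c_al.SmallLinear
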